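import Pool.Agent.Helper5.DU.Main
import Pool.Agent.Helper5.Realize

/-!
# The perfect set form of Vaught's conjecture for classes closed under infinite disjoint powers

For every countable relational language, every first-order theory `T` and every sentence `φ` of
`L_{omega_1, omega}` such that the disjoint union of infinitely many copies of a countable model
of `T` and `φ` is again a model of `T` and `φ`, the models of `T` and `φ` on `ℕ` fall into
countably many isomorphism types or there are perfectly many of them.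
-/

set_option autoImplicit false

namespace Pool.Agent.Helper5.DU.DisjointPowersResult

open Pool.Agent.Helper5 Pool.Agent.Helper5.DU Pool.Agent.Helper6.Str

/-- `S'` is (a copy on `ℕ` of) the disjoint union of infinitely many copies of `S`: there is a
bijection `e` from `ℕ × ℕ` to `ℕ` such that a tuple is in a relation of `S'` iff all its entries
lie in one copy and the tuple is in that relation of `S`. -/
def DisjointPower {L : FirstOrder.Language.{0, 0}} (S S' : L.Structure ℕ) : Prop :=
  ∃ e : ℕ × ℕ ≃ ℕ, ∀ (n : ℕ) (R : L.Relations n) (v : Fin n → ℕ × ℕ),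
    S'.RelMap R (fun k => e (v k)) ↔
      ∃ i, (∀ k, (v k).1 = i) ∧ S.RelMap R (fun k => (v k).2)

/-- **Vaught's conjecture (perfect set form) for classes closed under infinite disjoint
powers.** -/
theorem result (L : FirstOrder.Language.{0, 0}) (hc : Countable L.Symbols)
    (hrel : ∀ n, IsEmpty (L.Functions n)) (T : L.Theory) (φ : FmI L 0)
    (hpow : ∀ S S' : L.Structure ℕ, DisjointPower S S' →
      @FirstOrder.Language.Theory.Model L ℕ S T → Sat S φ Fin.elim0 →
      @FirstOrder.Language.Theory.Model L ℕ S' T ∧ Sat S' φ Fin.elim0) :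
    (∃ g : ℕ → L.Structure ℕ, ∀ S : L.Structure ℕ,
        @FirstOrder.Language.Theory.Model L ℕ S T → Sat S φ Fin.elim0 →
          ∃ n : ℕ, Nonempty (@FirstOrder.Language.Equiv L ℕ ℕ S (g n))) ∨
    (∃ f : (ℕ → Bool) → L.Structure ℕ,
        (∀ x : ℕ → Bool, @FirstOrder.Language.Theory.Model L ℕ (f x) T ∧
          Sat (f x) φ Fin.elim0) ∧
        (∀ x y : ℕ → Bool,
            Nonempty (@FirstOrder.Language.Equiv L ℕ ℕ (f x) (f y)) → x = y) ∧
        (∀ (n : ℕ) (R : L.Relations n) (a : Fin n → ℕ),
            IsClopen {x : ℕ → Bool | @FirstOrder.Language.Structure.RelMap L ℕ (f x) n R a})) := by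
  have hcr : ∀ n, Countable (L.Relations n) := countable_relations hc
  have hcs : Countable L.Sentence := inferInstanceAs (Countable (L.Formula Empty))
  let K : Set (L.Structure ℕ) :=
    {S | @FirstOrder.Language.Theory.Model L ℕ S T ∧ Sat S φ Fin.elim0}
  have hK : MeasurableSet {c : Code L | toStr c ∈ K} :=
    (measurableSet_model hc T).inter (measurableSet_sat φ Fin.elim0)
  -- the rank
  have hne : Nonempty L.Sentence := ⟨⊥⟩
  obtain ⟨d, hd⟩ := exists_surjective_nat L.Sentence
  let r : Rk := .sup fun n => if n = 0 then rk φ else rk (toI (d (n - 1)))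
  have hr : ∀ S S' : L.Structure ℕ, BF S S' r ∅ → S ∈ K → S' ∈ K := by
    rintro S S' hSS ⟨h1, h2⟩
    have hpr : ∀ (v w : Fin 0 → ℕ), (Set.range fun i => (v i, w i)) = (∅ : Set (ℕ × ℕ)) :=
      fun v w => Set.range_eq_empty _
    have hsent : ∀ σ : L.Sentence, @FirstOrder.Language.Sentence.Realize L ℕ S σ ↔
        @FirstOrder.Language.Sentence.Realize L ℕ S' σ := by
      intro σ
      obtain ⟨n, hn⟩ := hd σ
      have h3 := hSS (n + 1)
      simp only [Nat.add_eq_zero_iff, one_ne_zero, and_false, if_false, Nat.add_sub_cancel,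
        hn] at h3
      have h4 := sat_of_BF (toI σ) (default : Fin 0 → ℕ) (default : Fin 0 → ℕ)
        (by rw [hpr]; exact h3)
      rw [sat_toI, sat_toI] at h4
      have h5 : ∀ (A : L.Structure ℕ) (v : Empty → ℕ) (w : Fin 0 → ℕ),
          @FirstOrder.Language.BoundedFormula.Realize L ℕ A Empty 0 σ v w ↔
            @FirstOrder.Language.Sentence.Realize L ℕ A σ := by
        intro A v w
        exact iff_of_eq (congrArg₂ (@FirstOrder.Language.BoundedFormula.Realize L ℕ A Empty 0 σ)
          (Subsingleton.elim _ _) (Subsingleton.elim _ _))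
      rwa [h5, h5] at h4
    refine ⟨?_, ?_⟩
    · rw [@FirstOrder.Language.Theory.model_iff L ℕ S']
      rw [@FirstOrder.Language.Theory.model_iff L ℕ S] at h1
      exact fun σ hσ => (hsent σ).mp (h1 σ hσ)
    · have h3 := hSS 0
      simp only [if_true] at h3
      exact (sat_of_BF φ Fin.elim0 Fin.elim0 (by rw [hpr]; exact h3)).mp h2
  have hω : ∀ S ∈ K, ∀ S' : L.Structure ℕ, Iso (fam fun _ : ℕ => S) S' → S' ∈ K := by
    rintro S ⟨h1, h2⟩ S' ⟨e, he⟩
    exact hpow S S' ⟨e, fun n R v => (he n R v).symm⟩ h1 h2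
  rcases dichotomy_omega hK r hr hω with ⟨g, hg⟩ | ⟨f, hf1, hf2, hf3⟩
  · left
    refine ⟨g, fun S h1 h2 => ?_⟩
    obtain ⟨n, hn⟩ := hg S ⟨h1, h2⟩
    exact ⟨n, (nonempty_equiv_iff S (g n)).mpr hn⟩
  · right
    exact ⟨f, hf1, fun x y h => hf2 x y ((nonempty_equiv_iff _ _).mp h), hf3⟩

end Pool.Agent.Helper5.DU.DisjointPowersResult
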