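import Pool.Agent.Helper5.DU.Union

/-!
# Classes coded by Borel sets of multiplicity functions
-/

set_option autoImplicit false
set_option linter.unusedSectionVars false

namespace Pool.Agent.Helper5.DU

open Set Pool.Agent.Helper6 Pool.Agent.Helper6.Str Pool.Agent.Helper5.Multi

variable {L : FirstOrder.Language.{0, 0}} [∀ n, IsEmpty (L.Functions n)]

open Classical in
theorem exists_param {X : Type*} [TopologicalSpace X] [MeasurableSpace X]
    [OpensMeasurableSpace X] [∀ n, Countable (L.Relations n)] (U : L.Structure ℕ)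
    (A : X → Set ℕ) (hA : ∀ p, IsClopen {x | p ∈ A x}) :
    ∃ G : X → Code L, Measurable G ∧ ∀ x, (A x).Infinite → ∀ {β : Type} (N : L.Structure β)
      (J : β → ℕ), Function.Injective J → range J = A x →
      (∀ (n : ℕ) (R : L.Relations n) (v : Fin n → β),
        N.RelMap R v ↔ U.RelMap R (fun k => J (v k))) → Iso N (toStr (G x)) := by
  refine ⟨fun x p => decide (∃ w : Fin p.1 → ℕ, (∀ i, w i ∈ A x ∧
    Nat.count (· ∈ A x) (w i) = p.2.2 i) ∧ U.RelMap p.2.1 w), ?_, ?_⟩
  · rw [measurable_pi_iff]
    rintro ⟨n, R, v⟩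
    refine measurable_to_bool ?_
    have : (fun x => decide (∃ w : Fin n → ℕ, (∀ i, w i ∈ A x ∧
        Nat.count (· ∈ A x) (w i) = v i) ∧ U.RelMap R w)) ⁻¹' {true} =
        ⋃ w : Fin n → ℕ, ((⋂ i, ({x | w i ∈ A x} ∩ {x | Nat.count (· ∈ A x) (w i) = v i})) ∩
          {_x | U.RelMap R w}) := by
      ext x
      simp only [mem_preimage, mem_singleton_iff, decide_eq_true_eq, mem_iUnion, mem_inter_iff,
        mem_iInter, mem_ofPred_eq]
    show MeasurableSet ((fun x => decide (∃ w : Fin n → ℕ, (∀ i, w i ∈ A x ∧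
        Nat.count (· ∈ A x) (w i) = v i) ∧ U.RelMap R w)) ⁻¹' {true})
    rw [this]
    refine MeasurableSet.iUnion fun w => (MeasurableSet.iInter fun i => ?_).inter
      (MeasurableSet.const _)
    exact (hA _).isOpen.measurableSet.inter (isClopen_count hA _ _).isOpen.measurableSet
  · intro x hx β N J hJ hr hN
    have hi : (Set.ofPred (· ∈ A x)).Infinite := hx
    have hmem : ∀ n, ∃ b, J b = Nat.nth (· ∈ A x) n := by
      intro n
      have h0 : Nat.nth (· ∈ A x) n ∈ A x := Nat.nth_mem_of_infinite hi n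
      exact (Set.ext_iff.mp hr _).mpr h0
    choose f hf using hmem
    have hinj : Function.Injective f := by
      intro a b hab
      have h1 : Nat.nth (· ∈ A x) a = Nat.nth (· ∈ A x) b := by rw [← hf, ← hf, hab]
      exact Nat.nth_injective hi h1
    have hsurj : Function.Surjective f := by
      intro b
      have hb : J b ∈ A x := (Set.ext_iff.mp hr _).mp (mem_range_self b)
      refine ⟨Nat.count (· ∈ A x) (J b), ?_⟩
      apply hJ
      rw [hf]
      exact Nat.nth_count hb
    let E : ℕ ≃ β := Equiv.ofBijective f ⟨hinj, hsurj⟩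
    have hE : ∀ n, J (E n) = Nat.nth (· ∈ A x) n := hf
    apply Iso.symm
    refine ⟨E, fun n R v => ?_⟩
    rw [hN]
    have h1 : (fun k => J ((⇑E ∘ v) k)) = fun k => Nat.nth (· ∈ A x) (v k) := by
      funext k
      exact hE (v k)
    rw [h1]
    show decide (∃ w : Fin n → ℕ, (∀ i, w i ∈ A x ∧
        Nat.count (· ∈ A x) (w i) = v i) ∧ U.RelMap R w) = true ↔ _
    rw [decide_eq_true_eq]
    constructor
    · rintro ⟨w, h2, h3⟩
      have : (fun k => Nat.nth (· ∈ A x) (v k)) = w := by
        funext k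
        rw [← (h2 k).2]
        exact Nat.nth_count (h2 k).1
      rw [this]
      exact h3
    · intro h2
      exact ⟨_, fun k => ⟨Nat.nth_mem_of_infinite hi _, Nat.count_nth_of_infinite hi _⟩, h2⟩

/-- down-closed sets of natural numbers with the same size are equal -/
theorem eq_of_down {A B : Set ℕ} (hA : ∀ n, n + 1 ∈ A → n ∈ A) (hB : ∀ n, n + 1 ∈ B → n ∈ B)
    (h : A.encard = B.encard) : A = B := by
  have down : ∀ {C : Set ℕ}, (∀ n, n + 1 ∈ C → n ∈ C) → ∀ m n, m ≤ n → n ∈ C → m ∈ C := by
    intro C hC m n hmn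
    induction hmn with
    | refl => exact id
    | step _ ih => exact fun hn => ih (hC _ hn)
  have key : ∀ {C D : Set ℕ}, (∀ n, n + 1 ∈ C → n ∈ C) → (∀ n, n + 1 ∈ D → n ∈ D) →
      C.encard = D.encard → C ⊆ D := by
    intro C D hC hD hCD c hc
    by_contra hcon
    -- then `D` is bounded by `c`
    have h1 : D ⊆ {n | n < c} := by
      intro d hd
      by_contra hge
      simp only [mem_ofPred_eq, not_lt] at hge
      exact hcon (down hD c d hge hd)
    have h2 : {n | n < c + 1} ⊆ C := by
      intro n hn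
      exact down hC n c (Nat.lt_succ_iff.mp hn) hc
    have h3 : ({n : ℕ | n < c + 1}).encard ≤ ({n : ℕ | n < c}).encard :=
      (Set.encard_le_encard h2).trans (hCD.le.trans (Set.encard_le_encard h1))
    have h4 : ∀ m : ℕ, ({n : ℕ | n < m}).encard = m := by
      intro m
      have : {n : ℕ | n < m} = (Finset.range m : Set ℕ) := by
        ext n; simp
      rw [this, Set.encard_coe_eq_coe_finsetCard, Finset.card_range]
    rw [h4, h4] at h3
    have : c + 1 ≤ c := by exact_mod_cast h3
    omega
  exact Subset.antisymm (key hA hB h) (key hB hA h.symm)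

variable {K : Set (L.Structure ℕ)} (fr : PreFrame K)

theorem dichotomy_of_countable [∀ n, Countable (L.Relations n)] [Countable (Quotient fr.r)]
    (hK : MeasurableSet {c : Code L | toStr c ∈ K})
    (md_of : ∀ {I : Type} [Countable I] {P : I → fr.Piece}, Infinite (Pos fr.F fr.el P) →
      ∀ S ∈ K, Iso (fr.asm P) S → fr.Md P)
    (dec' : ∀ {I I' : Type} [Countable I] [Countable I'] {P : I → fr.Piece}
      {P' : I' → fr.Piece}, fr.Md P → fr.Md P' → Iso (fr.asm P) (fr.asm P') →
      ∃ τ : I ≃ I', ∀ i, fr.r (P i) (P' (τ i))) :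
    CtblK K ∨ PerfK K := by
  classical
  rcases K.eq_empty_or_nonempty with hE | ⟨S₁, hS₁⟩
  · exact Or.inl ⟨fun _ => toStr fun _ => false, fun S hS => by
      rw [hE] at hS; exact absurd hS (notMem_empty S)⟩
  have hctF := fr.ctF
  let Q := Quotient fr.r
  let PU : Q × ℕ → fr.Piece := fun u => Quotient.out u.1
  -- subfamilies
  let PX : ∀ x : Q × ℕ → Bool, {u : Q × ℕ // x u = true} → fr.Piece := fun x u => PU u.1
  let J : ∀ x : Q × ℕ → Bool, Pos fr.F fr.el (PX x) → Pos fr.F fr.el PU := fun x =>
    posMap (fun u : {u : Q × ℕ // x u = true} => u.1) (fun _ => rfl)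
  have hJ : ∀ x, Function.Injective (J x) := fun x =>
    posMap_injective _ _ Subtype.val_injective
  have hmk : ∀ (x : Q × ℕ → Bool) i, Quotient.mk fr.r (PX x i) = i.1.1 := fun x i =>
    Quotient.out_eq _
  have hmult : ∀ (x : Q × ℕ → Bool) (q : Q),
      fr.mult (PX x) q = {n : ℕ | x (q, n) = true}.encard := by
    intro x q
    unfold PreFrame.mult
    simp only [hmk]
    have h1 : {i : {u : Q × ℕ // x u = true} | i.1.1 = q} =
        range (fun n : {n : ℕ | x (q, n) = true} => (⟨(q, n), n.2⟩ :
          {u : Q × ℕ // x u = true})) := by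
      ext ⟨⟨q', n⟩, hn⟩
      simp only [mem_ofPred_eq, mem_range, Subtype.mk.injEq, Prod.mk.injEq]
      constructor
      · rintro rfl
        exact ⟨⟨n, hn⟩, rfl, rfl⟩
      · rintro ⟨n', h, -⟩
        exact h.symm
    rw [h1, ← Set.image_univ, Function.Injective.encard_image, Set.encard_univ,
      ENat.card_coe_set_eq]
    intro n n' h
    simp only [Subtype.mk.injEq, Prod.mk.injEq, true_and] at h
    exact Subtype.ext h
  -- the point coding given multiplicities
  let xm : (Q → ℕ∞) → Q × ℕ → Bool := fun m u => decide ((u.2 : ℕ∞) < m u.1)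
  have hxm : ∀ m : Q → ℕ∞, fr.mult (PX (xm m)) = m := by
    intro m
    funext q
    rw [hmult]
    simp only [xm, decide_eq_true_eq]
    exact encard_lt_nat (m q)
  have hrepx : ∀ S ∈ K, ∃ m : Q → ℕ∞, fr.Md (PX (xm m)) ∧ Iso (fr.asm (PX (xm m))) S := by
    intro S hS
    obtain ⟨I, hI, P, hP, hiso⟩ := fr.rep S hS
    obtain ⟨τ, hτ⟩ := fr.exists_equiv_of_mult (P := P) (P' := PX (xm (fr.mult P)))
      (hxm _).symm
    exact ⟨fr.mult P, fr.md_congr τ hτ hP, (fr.congr τ hτ hP).symm.trans hiso⟩
  -- the universal structure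
  have hγ : Infinite (Pos fr.F fr.el PU) := by
    obtain ⟨m, hm, -⟩ := hrepx S₁ hS₁
    have := fr.inf hm
    exact Infinite.of_injective (J (xm m)) (hJ _)
  obtain ⟨dn⟩ := nonempty_denumerable (Pos fr.F fr.el PU)
  let e : Pos fr.F fr.el PU ≃ ℕ := Denumerable.eqv _
  let A : (Q × ℕ → Bool) → Set ℕ := fun x => {m | e.symm m ∈ range (J x)}
  have hrange : ∀ x, range (fun b => e (J x b)) = A x := by
    intro x
    ext m
    constructor
    · rintro ⟨b, rfl⟩
      exact ⟨b, by simp⟩
    · rintro ⟨b, hb⟩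
      exact ⟨b, by simp only [hb]; simp⟩
  have hA : ∀ p, IsClopen {x | p ∈ A x} := by
    intro p
    rcases hp : e.symm p with f | ⟨⟨⟨q, n⟩, b⟩, hb⟩
    · have : {x | p ∈ A x} = univ := by
        ext x
        simp only [A, mem_ofPred_eq, mem_univ, iff_true]
        rw [hp]
        exact ⟨.inl f, rfl⟩
      rw [this]; exact isClopen_univ
    · have : {x | p ∈ A x} = (fun x : Q × ℕ → Bool => x (q, n)) ⁻¹' {true} := by
        ext x
        simp only [A, mem_ofPred_eq, mem_preimage, mem_singleton_iff]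
        rw [hp]
        constructor
        · rintro ⟨f | ⟨⟨⟨⟨q', n'⟩, hu⟩, b'⟩, hb'⟩, h⟩
          · simp [J, posMap] at h
          · simp only [J, posMap, Sum.inr.injEq, Subtype.mk.injEq, Prod.mk.injEq] at h
            obtain ⟨⟨rfl, rfl⟩, rfl⟩ := h
            exact hu
        · intro hx
          exact ⟨.inr ⟨(⟨(q, n), hx⟩, b), hb⟩, rfl⟩
      rw [this]
      exact (isClopen_discrete _).preimage (continuous_apply _)
  have hpol : PolishSpace (Q × ℕ → Bool) :=
    { toSecondCountableTopology := inferInstance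
      toIsCompletelyMetrizableSpace := inferInstance }
  obtain ⟨G, hG, hGiso⟩ := exists_param (pull (fr.asm PU) e.symm) A hA
  have hGi : ∀ x, (A x).Infinite → Iso (fr.asm (PX x)) (toStr (G x)) := by
    intro x hx
    have hinfx : Infinite (Pos fr.F fr.el (PX x)) := by
      rw [← hrange x] at hx
      by_contra hcon
      rw [not_infinite_iff_finite] at hcon
      exact hx (Set.finite_range _)
    refine hGiso x hx (fr.asm (PX x)) (fun b => e (J x b)) (e.injective.comp (hJ x)) (hrange x) ?_
    intro n R v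
    rw [fr.emb (fun u : {u : Q × ℕ // x u = true} => u.1) (fun _ => rfl)
      Subtype.val_injective hinfx n R v]
    show _ ↔ (fr.asm PU).RelMap R (fun k => e.symm (e (J x (v k))))
    simp only [Equiv.symm_apply_apply]
    exact Iff.rfl
  have hAinf : ∀ x, Infinite (Pos fr.F fr.el (PX x)) → (A x).Infinite := by
    intro x hx
    rw [← hrange x]
    exact Set.infinite_range_of_injective (e.injective.comp (hJ x))
  have hAinf' : ∀ x, (A x).Infinite → Infinite (Pos fr.F fr.el (PX x)) := by
    intro x hx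
    rw [← hrange x] at hx
    by_contra hcon
    rw [not_infinite_iff_finite] at hcon
    exact hx (Set.finite_range _)
  let B : Set (Q × ℕ → Bool) := ({x | ∀ q n, x (q, n + 1) = true → x (q, n) = true} ∩
    {x | (A x).Infinite}) ∩ G ⁻¹' {c | toStr c ∈ K}
  have hB : MeasurableSet B := by
    refine (MeasurableSet.inter ?_ ?_).inter (hG hK)
    · have : {x : Q × ℕ → Bool | ∀ q n, x (q, n + 1) = true → x (q, n) = true} =
          ⋂ q, ⋂ n, ({x : Q × ℕ → Bool | x (q, n + 1) = true}ᶜ ∪ {x | x (q, n) = true}) := by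
        ext x
        simp only [mem_ofPred_eq, mem_iInter, mem_union, mem_compl_iff]
        exact forall_congr' fun q => forall_congr' fun n => imp_iff_not_or
      rw [this]
      have hm : ∀ u : Q × ℕ, MeasurableSet {x : Q × ℕ → Bool | x u = true} := fun u =>
        ((isOpen_discrete ({true} : Set Bool)).preimage
          (continuous_apply (A := fun _ : Q × ℕ => Bool) u)).measurableSet
      exact MeasurableSet.iInter fun q => MeasurableSet.iInter fun n =>
        (hm _).compl.union (hm _)
    · have : {x | (A x).Infinite} = ⋂ m : ℕ, ⋃ k : ℕ, {x | m < k ∧ k ∈ A x} := by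
        ext x
        simp only [mem_ofPred_eq, mem_iInter, mem_iUnion]
        constructor
        · intro h m
          obtain ⟨k, hk, hmk⟩ := h.exists_gt m
          exact ⟨k, hmk, hk⟩
        · intro h
          refine Set.infinite_of_forall_exists_gt fun m => ?_
          obtain ⟨k, hmk, hk⟩ := h m
          exact ⟨k, hk, hmk⟩
      rw [this]
      refine MeasurableSet.iInter fun m => MeasurableSet.iUnion fun k => ?_
      exact (MeasurableSet.const _).inter (hA k).isOpen.measurableSet
  have hcov : ∀ S ∈ K, ∃ x ∈ B, Iso S (toStr (G x)) := by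
    intro S hS
    obtain ⟨m, hm, hiso⟩ := hrepx S hS
    have h1 := hAinf _ (fr.inf hm)
    refine ⟨xm m, ⟨⟨?_, h1⟩, ?_⟩, hiso.symm.trans (hGi _ h1)⟩
    · intro q n hn
      simp only [xm, decide_eq_true_eq] at hn ⊢
      exact lt_trans (by exact_mod_cast Nat.lt_succ_self n) hn
    · exact fr.mem hm _ (hGi _ h1)
  have hinjB : ∀ x ∈ B, ∀ y ∈ B, Iso (toStr (G x)) (toStr (G y)) → x = y := by
    intro x hx y hy hxy
    have h1 : Iso (fr.asm (PX x)) (fr.asm (PX y)) :=
      (hGi x hx.1.2).trans (hxy.trans (hGi y hy.1.2).symm)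
    have hMx : fr.Md (PX x) := md_of (hAinf' x hx.1.2) _ hx.2 (hGi x hx.1.2)
    have hMy : fr.Md (PX y) := md_of (hAinf' y hy.1.2) _ hy.2 (hGi y hy.1.2)
    obtain ⟨τ, hτ⟩ := dec' hMx hMy h1
    have h2 : fr.mult (PX x) = fr.mult (PX y) := by
      funext q
      unfold PreFrame.mult
      have h3 : {j | Quotient.mk fr.r (PX y j) = q} =
          τ '' {i | Quotient.mk fr.r (PX x i) = q} := by
        ext j
        obtain ⟨i, rfl⟩ := τ.surjective j
        have h4 : Quotient.mk fr.r (PX x i) = Quotient.mk fr.r (PX y (τ i)) :=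
          Quotient.sound (hτ i)
        simp only [mem_ofPred_eq, mem_image, EmbeddingLike.apply_eq_iff_eq, exists_eq_right]
        rw [h4]
      rw [h3, τ.injective.encard_image]
    funext ⟨q, n⟩
    have h3 : {n : ℕ | x (q, n) = true} = {n : ℕ | y (q, n) = true} := by
      refine eq_of_down (fun n hn => hx.1.1 q n hn) (fun n hn => hy.1.1 q n hn) ?_
      rw [← hmult, ← hmult, h2]
    rw [Bool.eq_iff_iff]
    exact Set.ext_iff.mp h3 n
  by_cases hc : B.Countable
  · left
    have hBne : B.Nonempty := by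
      obtain ⟨x, hx, -⟩ := hcov S₁ hS₁
      exact ⟨x, hx⟩
    obtain ⟨f, hf⟩ := hc.exists_eq_range hBne
    refine ⟨fun n => toStr (G (f n)), fun S hS => ?_⟩
    obtain ⟨x, hx, hiso⟩ := hcov S hS
    rw [hf] at hx
    obtain ⟨n, rfl⟩ := hx
    exact ⟨n, hiso⟩
  · right
    obtain ⟨g, hg, hgB, hgi, hgc⟩ := exists_cantor_continuous_all (J := Unit)
      (Y := (Q × ℕ → Bool) × Code L) (Z := fun _ x => (x, G x))
      (fun _ => measurable_id.prodMk hG) hB () (by
        intro hcc
        apply hc
        refine (hcc.image Prod.fst).mono ?_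
        intro x hx
        exact ⟨(x, G x), ⟨x, hx, rfl⟩, rfl⟩)
    refine ⟨fun x => toStr (G (g x)), fun x => (hgB x).2, fun x y hxy => ?_, fun n R a => ?_⟩
    · by_contra hne
      apply hgi x y hne
      have := hinjB _ (hgB x) _ (hgB y) hxy
      simp only [this]
    · exact (isClopen_relMap R a).preimage (hgc ()).snd

end Pool.Agent.Helper5.DU
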