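import Pool.Agent.Helper5.DU.Coded

/-!
# Components of structures and their disjoint unions
-/

set_option autoImplicit false
set_option linter.unusedSectionVars false

namespace Pool.Agent.Helper5.DU

open Set Pool.Agent.Helper6 Pool.Agent.Helper6.Str Pool.Agent.Helper5.Multi

variable {L : FirstOrder.Language.{0, 0}} {M N : Type}

/-- two elements in a common tuple of a relation -/
def adj (S : L.Structure M) (a b : M) : Prop :=
  ∃ (n : ℕ) (R : L.Relations n) (v : Fin n → M), S.RelMap R v ∧ a ∈ range v ∧ b ∈ range v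

/-- connection -/
def cn (S : L.Structure M) : M → M → Prop := Relation.ReflTransGen (adj S)

theorem adj_symm {S : L.Structure M} {a b : M} (h : adj S a b) : adj S b a := by
  obtain ⟨n, R, v, h1, h2, h3⟩ := h
  exact ⟨n, R, v, h1, h3, h2⟩

theorem cn_symm {S : L.Structure M} {a b : M} (h : cn S a b) : cn S b a := by
  induction h with
  | refl => exact Relation.ReflTransGen.refl
  | tail _ h2 ih => exact Relation.ReflTransGen.head (adj_symm h2) ih

theorem cn_trans {S : L.Structure M} {a b c : M} (h : cn S a b) (h' : cn S b c) : cn S a c :=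
  Relation.ReflTransGen.trans h h'

theorem cn_of_rel {S : L.Structure M} {n : ℕ} {R : L.Relations n} {v : Fin n → M}
    (h : S.RelMap R v) (k l : Fin n) : cn S (v k) (v l) :=
  Relation.ReflTransGen.single ⟨n, R, v, h, mem_range_self k, mem_range_self l⟩

theorem cn_map {S : L.Structure M} {S' : L.Structure N} {e : M ≃ N} (he : RelIso S S' e)
    {a b : M} (h : cn S a b) : cn S' (e a) (e b) := by
  induction h with
  | refl => exact Relation.ReflTransGen.refl
  | tail _ h2 ih =>
    obtain ⟨n, R, v, h1, ⟨i, hi⟩, ⟨j, hj⟩⟩ := h2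
    refine Relation.ReflTransGen.tail ih ⟨n, R, e ∘ v, (he n R v).mp h1, ⟨i, ?_⟩, ⟨j, ?_⟩⟩
    · simp [hi]
    · simp [hj]

/-- the component of an element -/
def cpt (S : L.Structure M) (a : M) : Set M := {b | cn S a b}

theorem self_mem_cpt (S : L.Structure M) (a : M) : a ∈ cpt S a := Relation.ReflTransGen.refl

theorem cpt_closed (S : L.Structure M) (a : M) {n : ℕ} {R : L.Relations n} {v : Fin n → M}
    (h : S.RelMap R v) : (∀ k, v k ∈ cpt S a) ∨ (∀ k, v k ∉ cpt S a) := by
  by_cases hk : ∃ k, v k ∈ cpt S a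
  · obtain ⟨k, hk⟩ := hk
    exact Or.inl fun l => cn_trans hk (cn_of_rel h k l)
  · push Not at hk
    exact Or.inr hk

/-- isomorphism of components -/
def CEq [∀ n, IsEmpty (L.Functions n)] (S : L.Structure M) (a : M) (S' : L.Structure N)
    (b : N) : Prop :=
  Iso (pull S (Subtype.val : cpt S a → M)) (pull S' (Subtype.val : cpt S' b → N))

/-- A piece: a point of a structure in a back-and-forth class. -/
structure Piece (W : L.Structure ℕ) (r : Rk) where
  str : L.Structure ℕ
  bf : BF str W r ∅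
  pt : ℕ

section

variable [∀ n, IsEmpty (L.Functions n)] {W : L.Structure ℕ} {r : Rk}

namespace Piece

/-- the elements of a piece -/
abbrev el (p : Piece W r) : Set ℕ := cpt p.str p.pt

theorem pt_mem (p : Piece W r) : p.pt ∈ p.el := self_mem_cpt _ _

/-- the setoid of pieces -/
def setoid (W : L.Structure ℕ) (r : Rk) : Setoid (Piece W r) where
  r := fun p p' => CEq p.str p.pt p'.str p'.pt
  iseqv := ⟨fun _ => Iso.refl _, fun h => Iso.symm h, fun h h' => Iso.trans h h'⟩

theorem nul {p : L.Structure M} {p' : L.Structure N} (h : BF p p' r ∅) (R : L.Relations 0)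
    (v : Fin 0 → M) (w : Fin 0 → N) : p.RelMap R v ↔ p'.RelMap R w := by
  have h1 := (BF.atEq r h).2 0 R (fun i => i.elim0) (fun i => i.elim0)
  have e1 : (fun i : Fin 0 => ((fun i => i.elim0 : Fin 0 → M × N) i).1) = v :=
    funext fun i => i.elim0
  have e2 : (fun i : Fin 0 => ((fun i => i.elim0 : Fin 0 → M × N) i).2) = w :=
    funext fun i => i.elim0
  rw [e1, e2] at h1
  exact h1

end Piece

/-- positions -/
abbrev PosD {I : Type} (P : I → Piece W r) : Type := Pos Empty Piece.el P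

/-- the underlying pair of a position -/
def pv {I : Type} {P : I → Piece W r} : PosD P → I × ℕ
  | .inl e => e.elim
  | .inr p => p.1

theorem pv_injective {I : Type} {P : I → Piece W r} : Function.Injective (pv (P := P)) := by
  rintro (e | p) (e' | p') h
  · exact e.elim
  · exact e.elim
  · exact e'.elim
  · exact congrArg _ (Subtype.ext h)

/-- the disjoint union of the pieces -/
@[instance_reducible]
def asmD {I : Type} (P : I → Piece W r) : L.Structure (PosD P) :=
  pull (fam fun i => (P i).str) pv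

theorem asmD_rel {I : Type} {P : I → Piece W r} {n : ℕ} (R : L.Relations n) (i : I)
    (w : Fin n → ℕ) (hw : ∀ k, w k ∈ (P i).el) :
    (asmD P).RelMap R (fun k => (.inr ⟨(i, w k), hw k⟩ : PosD P)) ↔ (P i).str.RelMap R w := by
  constructor
  · rintro ⟨i', h1, h2⟩
    cases n with
    | zero => exact (Piece.nul ((P i').bf.trans' (P i).bf.symm') R _ _).mp h2
    | succ n =>
      have h3 : i = i' := h1 0
      subst h3
      exact h2
  · intro h
    exact ⟨i, fun k => rfl, h⟩

theorem exists_form {I : Type} {P : I → Piece W r} {n : ℕ} (v : Fin n → PosD P) (i : I)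
    (h : ∀ k, (pv (v k)).1 = i) : ∃ (w : Fin n → ℕ) (hw : ∀ k, w k ∈ (P i).el),
      v = fun k => .inr ⟨(i, w k), hw k⟩ := by
  have h1 : ∀ k, ∃ (b : ℕ) (hb : b ∈ (P i).el), v k = .inr ⟨(i, b), hb⟩ := by
    intro k
    have h2 := h k
    rcases hv : v k with e | ⟨⟨j, b⟩, hb⟩
    · exact e.elim
    · rw [hv] at h2
      simp only [pv] at h2
      subst h2
      exact ⟨b, hb, rfl⟩
  choose w hw hv using h1
  exact ⟨w, hw, funext hv⟩

variable {I I' : Type} {P : I → Piece W r} {P' : I' → Piece W r}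

theorem asmD_congr (τ : I ≃ I') (h : ∀ i, Piece.setoid W r (P i) (P' (τ i))) :
    Iso (asmD P) (asmD P') := by
  choose σ hσ using h
  let E₀ : {p : I × ℕ // p.2 ∈ (P p.1).el} → {p : I' × ℕ // p.2 ∈ (P' p.1).el} := fun p =>
    ⟨(τ p.1.1, σ p.1.1 ⟨p.1.2, p.2⟩), (σ p.1.1 ⟨p.1.2, p.2⟩).2⟩
  have hinj : Function.Injective E₀ := by
    rintro ⟨⟨i, a⟩, ha⟩ ⟨⟨i', a'⟩, ha'⟩ hE
    simp only [E₀, Subtype.mk.injEq, Prod.mk.injEq] at hE
    have h1 : i = i' := τ.injective hE.1
    subst h1
    have h2 := (σ i).injective (Subtype.ext hE.2)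
    rw [Subtype.mk.injEq] at h2
    subst h2
    rfl
  have hsurj : Function.Surjective E₀ := by
    rintro ⟨⟨i', a'⟩, ha'⟩
    obtain ⟨i, rfl⟩ := τ.surjective i'
    obtain ⟨⟨a, ha⟩, haa⟩ := (σ i).surjective ⟨a', ha'⟩
    refine ⟨⟨(i, a), ha⟩, ?_⟩
    simp only [E₀, Subtype.mk.injEq, Prod.mk.injEq, true_and]
    rw [haa]
  let E : PosD P ≃ PosD P' :=
    Equiv.sumCongr (Equiv.refl _) (Equiv.ofBijective E₀ ⟨hinj, hsurj⟩)
  have hEi : ∀ (i : I) (b : ℕ) (hb : b ∈ (P i).el), E (.inr ⟨(i, b), hb⟩) =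
      .inr ⟨(τ i, σ i ⟨b, hb⟩), (σ i ⟨b, hb⟩).2⟩ := fun i b hb => rfl
  have key : ∀ (n : ℕ) (R : L.Relations n) (i : I) (w : Fin n → ℕ) (hw : ∀ k, w k ∈ (P i).el),
      (asmD P).RelMap R (fun k => (.inr ⟨(i, w k), hw k⟩ : PosD P)) ↔
      (asmD P').RelMap R (fun k => E (.inr ⟨(i, w k), hw k⟩)) := by
    intro n R i w hw
    have h1 := hσ i n R (fun k => ⟨w k, hw k⟩)
    simp only [hEi]
    rw [asmD_rel R i w hw, asmD_rel R (τ i) (fun k => (σ i ⟨w k, hw k⟩ : ℕ))]
    exact h1
  refine ⟨E, fun n R v => ?_⟩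
  constructor
  · intro hv
    obtain ⟨i, h1, h2⟩ := id hv
    obtain ⟨w, hw, rfl⟩ := exists_form v i h1
    exact (key n R i w hw).mp hv
  · intro hv
    obtain ⟨i', h1, h2⟩ := id hv
    obtain ⟨i, rfl⟩ := τ.surjective i'
    have h3 : ∀ k, (pv (v k)).1 = i := by
      intro k
      have h4 := h1 k
      rcases hvk : v k with e | ⟨⟨j, b⟩, hb⟩
      · exact e.elim
      · simp only [Function.comp, hvk, hEi, pv] at h4
        exact τ.injective h4
    obtain ⟨w, hw, rfl⟩ := exists_form v i h3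
    exact (key n R i w hw).mpr hv

theorem asmD_emb (j : I → I') (hj : ∀ i, P' (j i) = P i) (hinj : Function.Injective j)
    (hinf : Infinite (PosD P)) (n : ℕ) (R : L.Relations n) (v : Fin n → PosD P) :
    (asmD P).RelMap R v ↔ (asmD P').RelMap R (posMap j hj ∘ v) := by
  have hpv : ∀ x : PosD P, pv (P := P') (posMap j hj x) = (j (pv x).1, (pv x).2) := by
    rintro (e | p)
    · exact e.elim
    · rfl
  constructor
  · rintro ⟨i, h1, h2⟩
    refine ⟨j i, fun k => ?_, ?_⟩
    · simp only [Function.comp, hpv, h1]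
    · show (P' (j i)).str.RelMap R (fun k => (pv (posMap j hj (v k))).2)
      simp only [hpv]
      rw [hj]
      exact h2
  · rintro ⟨i', h1, h2⟩
    cases n with
    | zero =>
      obtain ⟨x⟩ : Nonempty (PosD P) := inferInstance
      refine ⟨(pv x).1, fun k => k.elim0, ?_⟩
      exact (Piece.nul ((P' i').bf.trans' (P (pv x).1).bf.symm') R _ _).mp h2
    | succ n =>
      have h3 : j (pv (v 0)).1 = i' := by
        have := h1 0
        simpa only [Function.comp, hpv] using this
      subst h3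
      refine ⟨(pv (v 0)).1, fun k => ?_, ?_⟩
      · have := h1 k
        simp only [Function.comp, hpv] at this
        exact hinj this
      · change (P' (j (pv (v 0)).1)).str.RelMap R (fun k => (pv (posMap j hj (v k))).2) at h2
        simp only [hpv] at h2
        rw [hj] at h2
        exact h2

/-! ### Every structure is the union of its components -/

theorem asmD_rep (S : L.Structure ℕ) (hS : BF S W r ∅) :
    ∃ (I : Type) (_ : Countable I) (P : I → Piece W r), Infinite (PosD P) ∧ Iso (asmD P) S := by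
  let st : Setoid ℕ :=
    { r := fun a b => cn S a b
      iseqv := ⟨fun _ => Relation.ReflTransGen.refl, cn_symm, cn_trans⟩ }
  let P : Quotient st → Piece W r := fun q => ⟨S, hS, q.out⟩
  have hmem : ∀ (q : Quotient st) (c : ℕ), c ∈ (P q).el ↔ Quotient.mk st c = q := by
    intro q c
    constructor
    · intro h
      rw [← Quotient.out_eq q]
      exact Quotient.sound (cn_symm h)
    · rintro rfl
      exact Quotient.exact (Quotient.out_eq (Quotient.mk st c))
  let f : PosD P → ℕ := fun x => (pv x).2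
  have hq : ∀ p : {p : Quotient st × ℕ // p.2 ∈ (P p.1).el}, Quotient.mk st p.1.2 = p.1.1 :=
    fun p => (hmem p.1.1 p.1.2).mp p.2
  have hinj : Function.Injective f := by
    rintro (e | p) (e' | p') h
    · exact e.elim
    · exact e.elim
    · exact e'.elim
    · have h1 : p.1.2 = p'.1.2 := h
      exact congrArg _ (Subtype.ext (Prod.ext (by rw [← hq p, ← hq p', h1]) h1))
  have hsurj : Function.Surjective f := fun c =>
    ⟨.inr ⟨(Quotient.mk st c, c), (hmem _ c).mpr rfl⟩, rfl⟩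
  let E : PosD P ≃ ℕ := Equiv.ofBijective f ⟨hinj, hsurj⟩
  have hiso : Iso (asmD P) S := by
    refine ⟨E, fun n R v => ?_⟩
    have hE : (⇑E ∘ v) = fun k => (pv (v k)).2 := rfl
    rw [hE]
    constructor
    · rintro ⟨i, h1, h2⟩
      exact h2
    · intro h
      cases n with
      | zero => exact ⟨Quotient.mk st 0, fun k => k.elim0, h⟩
      | succ n =>
        refine ⟨(pv (v 0)).1, fun k => ?_, h⟩
        have h1 : ∀ k, Quotient.mk st (pv (v k)).2 = (pv (v k)).1 := by
          intro k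
          rcases hv : v k with e | p
          · exact e.elim
          · exact hq p
        rw [← h1 k, ← h1 0]
        exact Quotient.sound (cn_of_rel h k 0)
  exact ⟨Quotient st, inferInstance, P, Infinite.of_injective E.symm E.symm.injective, hiso⟩

/-! ### Decoding -/

theorem adj_index {x y : PosD P} (h : adj (asmD P) x y) : (pv x).1 = (pv y).1 := by
  obtain ⟨n, R, v, ⟨i, h1, -⟩, ⟨a, rfl⟩, ⟨b, rfl⟩⟩ := h
  rw [h1, h1]

theorem cn_index {x y : PosD P} (h : cn (asmD P) x y) : (pv x).1 = (pv y).1 := by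
  induction h with
  | refl => rfl
  | tail _ h2 ih => rw [ih, adj_index h2]

theorem cn_pt (i : I) {b : ℕ} (hb : b ∈ (P i).el) :
    cn (asmD P) (.inr ⟨(i, (P i).pt), (P i).pt_mem⟩) (.inr ⟨(i, b), hb⟩) := by
  have key : ∀ b, ∀ h : cn (P i).str (P i).pt b,
      cn (asmD P) (.inr ⟨(i, (P i).pt), (P i).pt_mem⟩) (.inr ⟨(i, b), h⟩) := by
    intro b h
    induction h with
    | refl => exact Relation.ReflTransGen.refl
    | tail h1 h2 ih =>
      rename_i c d
      refine Relation.ReflTransGen.tail ih ?_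
      obtain ⟨n, R, v, hR, ⟨k, hk⟩, ⟨l, hl⟩⟩ := h2
      have hv : ∀ m, v m ∈ (P i).el := by
        intro m
        refine cn_trans (S := (P i).str) h1 ?_
        rw [← hk]
        exact cn_of_rel hR k m
      refine ⟨n, R, fun m => .inr ⟨(i, v m), hv m⟩, (asmD_rel R i v hv).mpr hR, ⟨k, ?_⟩,
        ⟨l, ?_⟩⟩
      · subst hk; rfl
      · subst hl; rfl
  exact key b hb

theorem cn_iff (p p' : {p : I × ℕ // p.2 ∈ (P p.1).el}) :
    cn (asmD P) (.inr p) (.inr p') ↔ p.1.1 = p'.1.1 := by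
  constructor
  · exact cn_index
  · obtain ⟨⟨i, b⟩, hb⟩ := p
    obtain ⟨⟨i', b'⟩, hb'⟩ := p'
    intro h
    simp only at h
    subst h
    exact cn_trans (cn_symm (cn_pt i hb)) (cn_pt i hb')

theorem asmD_dec (h : Iso (asmD P) (asmD P')) :
    ∃ τ : I ≃ I', ∀ i, Piece.setoid W r (P i) (P' (τ i)) := by
  -- one direction
  have key : ∀ {I I' : Type} {P : I → Piece W r} {P' : I' → Piece W r} (E : PosD P ≃ PosD P'),
      RelIso (asmD P) (asmD P') E → ∃ τ : I → I', ∀ i (b : ℕ) (hb : b ∈ (P i).el),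
        ∃ (c : ℕ) (hc : c ∈ (P' (τ i)).el), E (.inr ⟨(i, b), hb⟩) = .inr ⟨(τ i, c), hc⟩ := by
    intro I I' P P' E hE
    refine ⟨fun i => (pv (E (.inr ⟨(i, (P i).pt), (P i).pt_mem⟩))).1, fun i b hb => ?_⟩
    have h1 := cn_index (cn_map hE (cn_pt i hb))
    rcases hEb : E (.inr ⟨(i, b), hb⟩) with e | ⟨⟨i', c⟩, hc⟩
    · exact e.elim
    · rw [hEb] at h1
      simp only [pv] at h1
      subst h1
      exact ⟨c, hc, rfl⟩
  obtain ⟨E, hE⟩ := h
  obtain ⟨τ, hτ⟩ := key E hE
  obtain ⟨ρ, hρ⟩ := key E.symm hE.symm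
  have hρτ : ∀ i, ρ (τ i) = i := by
    intro i
    obtain ⟨c, hc, h1⟩ := hτ i _ (P i).pt_mem
    obtain ⟨d, hd, h2⟩ := hρ (τ i) c hc
    rw [← h1, Equiv.symm_apply_apply] at h2
    have h5 := congrArg (fun q => q.1.1) (Sum.inr.inj h2)
    exact h5.symm
  have hτρ : ∀ i, τ (ρ i) = i := by
    intro i
    obtain ⟨c, hc, h1⟩ := hρ i _ (P' i).pt_mem
    obtain ⟨d, hd, h2⟩ := hτ (ρ i) c hc
    rw [← h1, Equiv.apply_symm_apply] at h2
    have h5 := congrArg (fun q => q.1.1) (Sum.inr.inj h2)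
    exact h5.symm
  refine ⟨⟨τ, ρ, hρτ, hτρ⟩, fun i => ?_⟩
  choose ε hεm hε using hτ i
  have hinj : Function.Injective (fun b : (P i).el => (⟨ε b b.2, hεm b b.2⟩ : (P' (τ i)).el)) := by
    intro a b hab
    have h1 : ε a a.2 = ε b b.2 := congrArg Subtype.val hab
    have h2 : E (.inr ⟨(i, a.1), a.2⟩) = E (.inr ⟨(i, b.1), b.2⟩) := by
      rw [hε, hε]
      congr 1
      exact Subtype.ext (Prod.ext rfl h1)
    have h4 := E.injective h2
    rw [Sum.inr.injEq, Subtype.mk.injEq, Prod.mk.injEq] at h4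
    exact Subtype.ext h4.2
  have hsurj : Function.Surjective
      (fun b : (P i).el => (⟨ε b b.2, hεm b b.2⟩ : (P' (τ i)).el)) := by
    intro c
    obtain ⟨b, hb, h1⟩ := hρ (τ i) c.1 c.2
    have h5 : ∃ a', ∃ ha' : a' ∈ (P i).el,
        E.symm (.inr ⟨(τ i, c.1), c.2⟩) = .inr ⟨(i, a'), ha'⟩ := by
      have gen : ∀ k, k = i → (∃ a', ∃ ha' : a' ∈ (P k).el,
          E.symm (.inr ⟨(τ i, c.1), c.2⟩) = .inr ⟨(k, a'), ha'⟩) → ∃ a', ∃ ha' : a' ∈ (P i).el,
          E.symm (.inr ⟨(τ i, c.1), c.2⟩) = .inr ⟨(i, a'), ha'⟩ := by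
        rintro k rfl h
        exact h
      exact gen _ (hρτ i) ⟨b, hb, h1⟩
    obtain ⟨a', ha', h6⟩ := h5
    refine ⟨⟨a', ha'⟩, ?_⟩
    have h7 := hε a' ha'
    rw [← h6, Equiv.apply_symm_apply, Sum.inr.injEq, Subtype.mk.injEq, Prod.mk.injEq] at h7
    exact (Subtype.ext h7.2).symm
  refine ⟨Equiv.ofBijective _ ⟨hinj, hsurj⟩, fun n R w => ?_⟩
  show (P i).str.RelMap R (fun k => (w k).1) ↔
    (P' (τ i)).str.RelMap R (fun k => ε (w k).1 (w k).2)
  rw [← asmD_rel R i (fun k => (w k).1) (fun k => (w k).2),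
    ← asmD_rel R (τ i) (fun k => ε (w k).1 (w k).2) (fun k => hεm (w k).1 (w k).2), hE]
  have : (⇑E ∘ fun k => (.inr ⟨(i, (w k).1), (w k).2⟩ : PosD P)) =
      fun k => .inr ⟨(τ i, ε (w k).1 (w k).2), hεm (w k).1 (w k).2⟩ := by
    funext k
    exact hε (w k).1 (w k).2
  rw [this]

/-- the decomposition into components -/
noncomputable def preFrame (W : L.Structure ℕ) (r : Rk) : PreFrame (KB r W) where
  Piece := Piece W r
  r := Piece.setoid W r
  F := Empty
  ctF := inferInstance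
  el := Piece.el
  asm := fun P => asmD P
  Md := fun P => Infinite (PosD P) ∧ BF (asmD P) W r ∅
  md_congr := by
    intro I I' _ _ P P' τ h hP
    obtain ⟨E, hE⟩ := asmD_congr τ h
    have := hP.1
    exact ⟨Infinite.of_injective E E.injective, (BF.of_iso ⟨E, hE⟩ r).symm'.trans' hP.2⟩
  congr := fun τ h _ => asmD_congr τ h
  inf := fun hP => hP.1
  emb := fun j hj hinj hinf n R v => asmD_emb j hj hinj hinf n R v
  mem := fun hP S hS => (BF.of_iso hS r).symm'.trans' hP.2
  rep := by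
    intro S hS
    obtain ⟨I, hI, P, hinf, hiso⟩ := asmD_rep S hS
    exact ⟨I, hI, P, ⟨hinf, (BF.of_iso hiso r).trans' hS⟩, hiso⟩

end

end Pool.Agent.Helper5.DU
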