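import Pool.Agent.Helper5.DU.Comp

/-!
# Classes closed under infinite disjoint powers
-/

set_option autoImplicit false
set_option linter.unusedSectionVars false

namespace Pool.Agent.Helper5.DU

open Set Pool.Agent.Helper6 Pool.Agent.Helper6.Str Pool.Agent.Helper5.Multi

variable {L : FirstOrder.Language.{0, 0}} {M N : Type} [∀ n, IsEmpty (L.Functions n)]

theorem perfK_mono {K K' : Set (L.Structure ℕ)} (h : K ⊆ K') (hK : PerfK K) : PerfK K' := by
  obtain ⟨f, h1, h2, h3⟩ := hK
  exact ⟨f, fun x => h (h1 x), h2, h3⟩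

/-- `W` absorbs components of equivalent structures. -/
theorem absorb_pieces {W : L.Structure ℕ} {r : Rk} (hW : Iso (fam fun _ : ℕ => W) W)
    {I I' : Type} [Countable I] [Countable I'] {P : I → Piece W r} {P' : I' → Piece W r}
    (j : I → I') (hinj : Function.Injective j) (hj : ∀ i, P' (j i) = P i)
    (hP : BF (asmD P) W r ∅) : BF (asmD P') W r ∅ := by
  let Q : Option {i : I' // i ∉ range j} → L.Structure ℕ := fun o => match o with
    | none => W
    | some i => (P' i.1).str
  let C : {i : I' // i ∉ range j} → Set ℕ := fun i => (P' i.1).el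
  -- the union splits
  have h1 : Iso (asmD P') (dsum (asmD P) (parts Q C)) := by
    let h : PosD P ⊕ {p : {i : I' // i ∉ range j} × ℕ // p.2 ∈ C p.1} → I' × ℕ := fun x =>
      match x with
      | .inl x => (j (pv x).1, (pv x).2)
      | .inr p => (p.1.1.1, p.1.2)
    refine iso_of_emb (U := fam fun i => (P' i).str) pv h pv_injective ?_
      (fun n R v => Iff.rfl) ?_ ?_
    · rintro (x | p) (y | q) hxy
      · have h2 : (j (pv x).1, (pv x).2) = (j (pv y).1, (pv y).2) := hxy
        rw [Prod.mk.injEq] at h2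
        exact congrArg _ (pv_injective (Prod.ext (hinj h2.1) h2.2))
      · exfalso
        have h2 : (j (pv x).1, (pv x).2) = (q.1.1.1, q.1.2) := hxy
        rw [Prod.mk.injEq] at h2
        exact q.1.1.2 ⟨_, h2.1⟩
      · exfalso
        have h2 : (p.1.1.1, p.1.2) = (j (pv y).1, (pv y).2) := hxy
        rw [Prod.mk.injEq] at h2
        exact p.1.1.2 ⟨_, h2.1.symm⟩
      · have h2 : (p.1.1.1, p.1.2) = (q.1.1.1, q.1.2) := hxy
        rw [Prod.mk.injEq] at h2
        exact congrArg _ (Subtype.ext (Prod.ext (Subtype.ext h2.1) h2.2))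
    · intro n R v
      constructor
      · rintro (⟨w, rfl, i, h2, h3⟩ | ⟨w, rfl, i, h2, h3⟩)
        · refine ⟨j i, fun k => ?_, ?_⟩
          · exact congrArg j (h2 k)
          · show (P' (j i)).str.RelMap R (fun k => (pv (w k)).2)
            rw [hj]
            exact h3
        · refine ⟨i.1, fun k => ?_, h3⟩
          exact congrArg Subtype.val (h2 k)
      · rintro ⟨i', h2, h3⟩
        by_cases hi' : i' ∈ range j
        · obtain ⟨i, rfl⟩ := hi'
          have h4 : ∀ k, ∃ x, v k = .inl x ∧ (pv x).1 = i := by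
            intro k
            have h5 : (h (v k)).1 = j i := h2 k
            rcases hv : v k with x | p
            · rw [hv] at h5
              exact ⟨x, rfl, hinj h5⟩
            · rw [hv] at h5
              exact absurd ⟨i, h5.symm⟩ p.1.1.2
          choose x hx1 hx2 using h4
          refine Or.inl ⟨x, funext hx1, i, hx2, ?_⟩
          have h6 : (fun k => (h (v k)).2) = fun k => (pv (x k)).2 := by
            funext k
            rw [hx1 k]
          change (P' (j i)).str.RelMap R (fun k => (h (v k)).2) at h3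
          rw [h6, hj] at h3
          exact h3
        · have h4 : ∀ k, ∃ p, v k = .inr p ∧ p.1.1 = ⟨i', hi'⟩ := by
            intro k
            have h5 : (h (v k)).1 = i' := h2 k
            rcases hv : v k with x | p
            · rw [hv] at h5
              exact absurd ⟨_, h5⟩ hi'
            · rw [hv] at h5
              exact ⟨p, rfl, Subtype.ext h5⟩
          choose x hx1 hx2 using h4
          refine Or.inr ⟨x, funext hx1, ⟨i', hi'⟩, hx2, ?_⟩
          have h6 : (fun k => (h (v k)).2) = fun k => (x k).1.2 := by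
            funext k
            rw [hx1 k]
          change (P' i').str.RelMap R (fun k => (h (v k)).2) at h3
          rw [h6] at h3
          exact h3
    · ext p
      constructor
      · rintro ⟨e | q, rfl⟩
        · exact e.elim
        · by_cases hq : q.1.1 ∈ range j
          · obtain ⟨i, hi⟩ := hq
            obtain ⟨⟨i', b⟩, hb⟩ := q
            simp only at hi
            subst hi
            refine ⟨.inl (.inr ⟨(i, b), ?_⟩), rfl⟩
            rw [← hj]
            exact hb
          · exact ⟨.inr ⟨(⟨q.1.1, hq⟩, q.1.2), q.2⟩, rfl⟩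
      · rintro ⟨x | q, rfl⟩
        · rcases x with e | q
          · exact e.elim
          · exact ⟨.inr ⟨(j q.1.1, q.1.2), by rw [hj]; exact q.2⟩, rfl⟩
        · exact ⟨.inr ⟨(q.1.1.1, q.1.2), q.2⟩, rfl⟩
  have h2 : BF (big Q) W r ∅ := by
    have h3 : BF (big Q) (fam fun _ : Option {i : I' // i ∉ range j} × ℕ => W) r ∅ := by
      refine BF_fam' fun o => ?_
      rcases o with ⟨_ | i, n⟩
      · exact BF.refl W r
      · exact (P' i.1).bf
    obtain ⟨τ⟩ : Nonempty (Option {i : I' // i ∉ range j} × ℕ ≃ ℕ) :=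
      nonempty_equiv_of_countable
    have h4 : Iso (fam fun _ : Option {i : I' // i ∉ range j} × ℕ => W) (fam fun _ : ℕ => W) :=
      fam_reindex τ (fun _ => W)
    exact h3.trans' (BF.of_iso (h4.trans hW) r)
  have h3 : BF (dsum (asmD P) (parts Q C)) (dsum (big Q) (parts Q C)) r ∅ :=
    BF_dsum' (hP.trans' h2.symm') (BF.refl _ r)
  have h4 : Iso (dsum (big Q) (parts Q C)) (big Q) :=
    absorb fun i n R v hv => cpt_closed _ _ hv
  exact (BF.of_iso h1 r).trans' (h3.trans' ((BF.of_iso h4 r).trans' h2))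

/-- the frame of a class with an idempotent member -/
noncomputable def frameD {W : L.Structure ℕ} (r : Rk) (hW : Iso (fam fun _ : ℕ => W) W) :
    Frame (KB r W) :=
  { preFrame W r with
    mono := by
      intro I I' _ _ P P' j hinj hj hP
      have hP' : Infinite (PosD P) ∧ BF (asmD P) W r ∅ := hP
      have := hP'.1
      exact ⟨Infinite.of_injective (posMap j hj) (posMap_injective j hj hinj),
        absorb_pieces hW j hinj hj hP'.2⟩
    dec := by
      intro I I' _ _ P P' _ _ h
      obtain ⟨τ, hτ⟩ := asmD_dec h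
      refine ⟨τ, fun i j => ⟨fun h => ?_, fun h => ?_⟩⟩
      · exact (Piece.setoid W r).trans' ((Piece.setoid W r).symm' (hτ i))
          ((Piece.setoid W r).trans' h (hτ j))
      · exact (Piece.setoid W r).trans' (hτ i)
          ((Piece.setoid W r).trans' h ((Piece.setoid W r).symm' (hτ j))) }

/-! ### Components of infinite powers -/

theorem cn_fam {S : L.Structure M} {a : M} {p : ℕ × M}
    (h : cn (fam fun _ : ℕ => S) (0, a) p) : p.1 = 0 ∧ cn S a p.2 := by
  induction h with
  | refl => exact ⟨rfl, Relation.ReflTransGen.refl⟩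
  | tail _ h2 ih =>
    obtain ⟨n, R, v, ⟨i, h3, h4⟩, ⟨k, rfl⟩, ⟨l, rfl⟩⟩ := h2
    refine ⟨?_, cn_trans ih.2 (cn_of_rel h4 k l)⟩
    rw [h3 l, ← h3 k]
    exact ih.1

theorem cn_fam' {S : L.Structure M} {a b : M} (h : cn S a b) :
    cn (fam fun _ : ℕ => S) (0, a) (0, b) := by
  induction h with
  | refl => exact Relation.ReflTransGen.refl
  | tail _ h2 ih =>
    obtain ⟨n, R, v, h3, ⟨k, rfl⟩, ⟨l, rfl⟩⟩ := h2
    exact Relation.ReflTransGen.tail ih
      ⟨n, R, fun m => (0, v m), ⟨0, fun _ => rfl, h3⟩, ⟨k, rfl⟩, ⟨l, rfl⟩⟩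

theorem ceq_fam (S : L.Structure M) (a : M) : CEq S a (fam fun _ : ℕ => S) (0, a) := by
  refine iso_of_emb (U := fam fun _ : ℕ => S) (fun b : cpt S a => (0, b.1)) Subtype.val ?_
    Subtype.val_injective ?_ (fun n R v => Iff.rfl) ?_
  · intro b c h
    exact Subtype.ext (Prod.mk.inj h).2
  · intro n R v
    constructor
    · intro h
      exact ⟨0, fun _ => rfl, h⟩
    · rintro ⟨i, -, h⟩
      exact h
  · ext p
    constructor
    · rintro ⟨b, rfl⟩
      exact ⟨⟨_, cn_fam' b.2⟩, rfl⟩
    · rintro ⟨q, rfl⟩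
      obtain ⟨h1, h2⟩ := cn_fam q.2
      exact ⟨⟨q.1.2, h2⟩, Prod.ext h1.symm rfl⟩

theorem ceq_iso {S : L.Structure M} {S' : L.Structure N} {e : M ≃ N} (he : RelIso S S' e)
    (a : M) : CEq S a S' (e a) := by
  refine iso_of_emb (U := S') (fun b : cpt S a => e b.1) Subtype.val ?_
    Subtype.val_injective (fun n R v => he n R (fun k => (v k).1)) (fun n R v => Iff.rfl) ?_
  · intro b c h
    exact Subtype.ext (e.injective h)
  · ext p
    constructor
    · rintro ⟨b, rfl⟩
      exact ⟨⟨_, cn_map he b.2⟩, rfl⟩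
    · rintro ⟨q, rfl⟩
      have h1 := cn_map he.symm q.2
      rw [Equiv.symm_apply_apply] at h1
      exact ⟨⟨_, h1⟩, by simp⟩

theorem countable_pieces {S₀ W : L.Structure ℕ} {r : Rk} (hW : Iso (fam fun _ : ℕ => S₀) W)
    (hc : CtblK (KB r W)) : Countable (Quotient (Piece.setoid S₀ r)) := by
  obtain ⟨g, hg⟩ := hc
  have h1 : ∀ p : Piece S₀ r, ∃ u : ℕ × ℕ, CEq p.str p.pt (g u.1) u.2 := by
    intro p
    obtain ⟨e⟩ : Nonempty (ℕ × ℕ ≃ ℕ) := nonempty_equiv_of_countable
    let N : L.Structure ℕ := pull (fam fun _ : ℕ => p.str) e.symm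
    have hN : RelIso (fam fun _ : ℕ => p.str) N e := by
      intro n R v
      show _ ↔ (fam fun _ : ℕ => p.str).RelMap R (fun k => e.symm (e (v k)))
      simp only [Equiv.symm_apply_apply]
    have hNK : N ∈ KB r W := by
      have h2 : BF (fam fun _ : ℕ => p.str) (fam fun _ : ℕ => S₀) r ∅ := BF_fam' fun _ => p.bf
      exact (BF.of_iso (Iso.symm ⟨e, hN⟩) r).trans' (h2.trans' (BF.of_iso hW r))
    obtain ⟨n, e', he'⟩ := hg N hNK
    refine ⟨(n, e' (e (0, p.pt))), ?_⟩
    exact (ceq_fam p.str p.pt).trans ((ceq_iso hN _).trans (ceq_iso he' _))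
  choose u hu using h1
  have hinj : Function.Injective fun q : Quotient (Piece.setoid S₀ r) => u q.out := by
    intro q q' hqq
    have h2 : u q.out = u q'.out := hqq
    rw [← Quotient.out_eq q, ← Quotient.out_eq q']
    apply Quotient.sound
    have h3 := hu q'.out
    rw [← h2] at h3
    exact Iso.trans (hu q.out) (Iso.symm h3)
  exact hinj.countable

theorem fam_iso {S : L.Structure M} {S' : L.Structure N} (h : Iso S S') :
    Iso (fam fun _ : ℕ => S) (fam fun _ : ℕ => S') := by
  obtain ⟨e, he⟩ := h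
  refine ⟨Equiv.prodCongr (Equiv.refl ℕ) e, fun n R v => ?_⟩
  constructor
  · rintro ⟨i, h1, h2⟩
    exact ⟨i, h1, (he n R _).mp h2⟩
  · rintro ⟨i, h1, h2⟩
    exact ⟨i, h1, (he n R _).mpr h2⟩

theorem fam_fam (S : L.Structure M) :
    Iso (fam fun _ : ℕ => fam fun _ : ℕ => S) (fam fun _ : ℕ => S) := by
  obtain ⟨e⟩ : Nonempty (ℕ × ℕ ≃ ℕ) := nonempty_equiv_of_countable
  refine ⟨(Equiv.prodAssoc ℕ ℕ M).symm.trans (Equiv.prodCongr e (Equiv.refl M)),
    fun n R v => ?_⟩
  constructor
  · rintro ⟨i, h1, j, h2, h3⟩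
    refine ⟨e (i, j), fun k => ?_, h3⟩
    show e ((v k).1, (v k).2.1) = e (i, j)
    rw [h1 k, h2 k]
  · rintro ⟨m, h1, h2⟩
    obtain ⟨⟨i, j⟩, rfl⟩ := e.surjective m
    have h3 : ∀ k, ((v k).1, (v k).2.1) = (i, j) := fun k => e.injective (h1 k)
    exact ⟨i, fun k => (Prod.mk.inj (h3 k)).1, j, fun k => (Prod.mk.inj (h3 k)).2, h2⟩

theorem ctblK_cover {K : Set (L.Structure ℕ)} {C : Set (L.Structure ℕ)} (hC : C.Countable)
    {G : L.Structure ℕ → Set (L.Structure ℕ)} (h : ∀ S ∈ C, CtblK (G S))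
    (hK : ∀ S ∈ K, ∃ S₀ ∈ C, S ∈ G S₀) : CtblK K := by
  classical
  rcases C.eq_empty_or_nonempty with rfl | hne
  · refine ⟨fun _ => toStr fun _ => false, fun S hS => ?_⟩
    obtain ⟨S₀, h0, -⟩ := hK S hS
    exact absurd h0 (notMem_empty S₀)
  · obtain ⟨f, rfl⟩ := hC.exists_eq_range hne
    choose g hg using fun n => h (f n) (mem_range_self n)
    obtain ⟨d, hd⟩ := exists_surjective_nat (ℕ × ℕ)
    refine ⟨fun n => g (d n).1 (d n).2, fun S hS => ?_⟩
    obtain ⟨_, ⟨n, rfl⟩, h0⟩ := hK S hS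
    obtain ⟨m, hm⟩ := hg n S h0
    obtain ⟨k, hk⟩ := hd (n, m)
    refine ⟨k, ?_⟩
    show Iso S (g (d k).1 (d k).2)
    rw [hk]
    exact hm

/-- **Vaught's conjecture for classes closed under infinite disjoint powers.** -/
theorem dichotomy_omega [∀ n, Countable (L.Relations n)] {K : Set (L.Structure ℕ)}
    (hK : MeasurableSet {c : Code L | toStr c ∈ K}) (r : Rk)
    (hr : ∀ S S' : L.Structure ℕ, BF S S' r ∅ → S ∈ K → S' ∈ K)
    (hω : ∀ S ∈ K, ∀ S' : L.Structure ℕ, Iso (fam fun _ : ℕ => S) S' → S' ∈ K) :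
    CtblK K ∨ PerfK K := by
  by_cases hP : PerfK K
  · exact Or.inr hP
  left
  obtain ⟨C, hC, hCK, hcov⟩ := cover_classes hK hP r
  refine ctblK_cover hC (G := KB r) (fun S₀ hS₀ => ?_) hcov
  have hS₀K := hCK hS₀
  have hsub₀ : KB r S₀ ⊆ K := fun S hS => hr S₀ S (BF.symm' hS) hS₀K
  -- the infinite power
  obtain ⟨e⟩ : Nonempty (ℕ × ℕ ≃ ℕ) := nonempty_equiv_of_countable
  let W : L.Structure ℕ := pull (fam fun _ : ℕ => S₀) e.symm
  have hW : Iso (fam fun _ : ℕ => S₀) W := by
    refine ⟨e, fun n R v => ?_⟩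
    show _ ↔ (fam fun _ : ℕ => S₀).RelMap R (fun k => e.symm (e (v k)))
    simp only [Equiv.symm_apply_apply]
  have hWK : W ∈ K := hω S₀ hS₀K W hW
  have hsub : KB r W ⊆ K := fun S hS => hr W S (BF.symm' hS) hWK
  have hidem : Iso (fam fun _ : ℕ => W) W :=
    (fam_iso hW.symm).trans ((fam_fam S₀).trans hW)
  have h1 : CtblK (KB r W) := by
    rcases (frameD r hidem).dichotomy with h | h
    · exact h
    · exact absurd (perfK_mono hsub h) hP
  have h2 := countable_pieces hW h1
  have h3 : Countable (Quotient (preFrame S₀ r).r) := h2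
  rcases dichotomy_of_countable (preFrame S₀ r) (measurableSet_BF S₀ r ∅)
      (fun {I} _ {P} hinf S hS hiso => ⟨hinf, (BF.of_iso hiso r).trans' hS⟩)
      (fun {I I'} _ _ {P P'} _ _ h => asmD_dec h) with h | h
  · exact h
  · exact absurd (perfK_mono hsub₀ h) hP

end Pool.Agent.Helper5.DU
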