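import Pool.Agent.VB.B

/-!
# Disjoint unions and back-and-forth equivalence
-/

set_option autoImplicit false
set_option linter.unusedSectionVars false

namespace Pool.Agent.Helper5.DU

open Set Pool.Agent.Helper6.Str

variable {L : FirstOrder.Language.{0, 0}} {M N M' N' G : Type} [∀ n, IsEmpty (L.Functions n)]

/-- the disjoint union of a family of structures with the same universe -/
@[instance_reducible]
def fam {I : Type} (S : I → L.Structure M) : L.Structure (I × M) :=
  { funMap := fun f _ => isEmptyElim f
    RelMap := fun {_} R v => ∃ i, (∀ k, (v k).1 = i) ∧ (S i).RelMap R (fun k => (v k).2) }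

/-- the disjoint union of two structures -/
@[instance_reducible]
def dsum (A : L.Structure M) (B : L.Structure N) : L.Structure (M ⊕ N) :=
  { funMap := fun f _ => isEmptyElim f
    RelMap := fun {_} R v => (∃ w, v = (fun k => Sum.inl (w k)) ∧ A.RelMap R w) ∨
      (∃ w, v = (fun k => Sum.inr (w k)) ∧ B.RelMap R w) }

/-- the structure induced along a map -/
@[instance_reducible]
def pull (U : L.Structure G) (f : M → G) : L.Structure M :=
  { funMap := fun f _ => isEmptyElim f
    RelMap := fun {_} R v => U.RelMap R (fun k => f (v k)) }

theorem BF_fam {I : Type} {S : I → L.Structure M} {S' : I → L.Structure N} (r : Rk) :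
    ∀ {Γ : I → Set (M × N)}, (∀ i, BF (S i) (S' i) r (Γ i)) →
      BF (fam S) (fam S') r {p | p.1.1 = p.2.1 ∧ (p.1.2, p.2.2) ∈ Γ p.1.1} := by
  classical
  induction r with
  | zero =>
    intro Γ h
    refine ⟨?_, fun n R v hv => ?_⟩
    · rintro ⟨⟨i, a⟩, ⟨i₁, b⟩⟩ ⟨h1, h2⟩ ⟨⟨j, c⟩, ⟨j₁, d⟩⟩ ⟨h3, h4⟩
      simp only at h1 h2 h3 h4
      subst h1 h3
      simp only [Prod.mk.injEq]
      constructor
      · rintro ⟨rfl, rfl⟩
        exact ⟨rfl, ((h i).1 _ h2 _ h4).mp rfl⟩
      · rintro ⟨rfl, rfl⟩
        exact ⟨rfl, ((h i).1 _ h2 _ h4).mpr rfl⟩
    · constructor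
      · rintro ⟨i, h1, h2⟩
        refine ⟨i, fun k => (hv k).1.symm.trans (h1 k), ?_⟩
        refine ((h i).2 n R (fun k => ((v k).1.2, (v k).2.2)) fun k => ?_).mp h2
        have := (hv k).2
        rwa [h1 k] at this
      · rintro ⟨i, h1, h2⟩
        refine ⟨i, fun k => (hv k).1.trans (h1 k), ?_⟩
        refine ((h i).2 n R (fun k => ((v k).1.2, (v k).2.2)) fun k => ?_).mpr h2
        have := (hv k).2
        rwa [(hv k).1.trans (h1 k)] at this
  | succ r ih =>
    intro Γ h
    have key : ∀ (i : I) (a : M) (b : N), BF (S i) (S' i) r (insert (a, b) (Γ i)) →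
        BF (fam S) (fam S') r (insert ((i, a), (i, b))
          {p | p.1.1 = p.2.1 ∧ (p.1.2, p.2.2) ∈ Γ p.1.1}) := by
      intro i a b hb
      have h1 : ∀ j, BF (S j) (S' j) r (Γ j ∪ {p | j = i ∧ p = (a, b)}) := by
        intro j
        by_cases hj : j = i
        · subst hj
          refine BF.anti r ?_ hb
          rintro p (hp | hp)
          · exact mem_insert_of_mem _ hp
          · rw [hp.2]; exact mem_insert _ _
        · refine BF.anti r ?_ (h j).1
          rintro p (hp | hp)
          · exact hp
          · exact absurd hp.1 hj
      refine BF.anti r ?_ (ih h1)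
      rintro p (rfl | hp)
      · exact ⟨rfl, Or.inr ⟨rfl, rfl⟩⟩
      · exact ⟨hp.1, Or.inl hp.2⟩
    refine ⟨ih fun i => (h i).1, ?_, ?_⟩
    · rintro ⟨i, a⟩
      obtain ⟨b, hb⟩ := (h i).2.1 a
      exact ⟨(i, b), key i a b hb⟩
    · rintro ⟨i, b⟩
      obtain ⟨a, ha⟩ := (h i).2.2 b
      exact ⟨(i, a), key i a b ha⟩
  | sup f ih => intro Γ h n; exact ih n fun i => h i n

theorem BF_fam' {I : Type} {S : I → L.Structure M} {S' : I → L.Structure N} {r : Rk}
    (h : ∀ i, BF (S i) (S' i) r ∅) : BF (fam S) (fam S') r ∅ :=
  BF.anti r (empty_subset _) (BF_fam r h)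

/-- the combined set of pairs -/
def cmb (Γ : Set (M × M')) (Δ : Set (N × N')) : Set ((M ⊕ N) × (M' ⊕ N')) :=
  {p | (∃ q ∈ Γ, p = (.inl q.1, .inl q.2)) ∨ (∃ q ∈ Δ, p = (.inr q.1, .inr q.2))}

theorem BF_dsum {A : L.Structure M} {A' : L.Structure M'} {B : L.Structure N}
    {B' : L.Structure N'} (r : Rk) : ∀ {Γ : Set (M × M')} {Δ : Set (N × N')},
    BF A A' r Γ → BF B B' r Δ → BF (dsum A B) (dsum A' B') r (cmb Γ Δ) := by
  induction r with
  | zero =>
    intro Γ Δ h1 h2
    refine ⟨?_, fun n R v hv => ?_⟩
    · rintro _ (⟨q, hq, rfl⟩ | ⟨q, hq, rfl⟩) _ (⟨q', hq', rfl⟩ | ⟨q', hq', rfl⟩)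
      · simp only [Sum.inl.injEq]
        exact h1.1 _ hq _ hq'
      · simp
      · simp
      · simp only [Sum.inr.injEq]
        exact h2.1 _ hq _ hq'
    · constructor
      · rintro (⟨w, hw, hR⟩ | ⟨w, hw, hR⟩)
        · have h3 : ∀ k, ∃ q ∈ Γ, v k = (.inl q.1, .inl q.2) ∧ q.1 = w k := by
            intro k
            rcases hv k with ⟨q, hq, h4⟩ | ⟨q, hq, h4⟩
            · refine ⟨q, hq, h4, ?_⟩
              have := congrFun hw k
              rw [h4] at this
              exact Sum.inl.inj this
            · have := congrFun hw k
              rw [h4] at this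
              simp at this
          choose q hq h4 h5 using h3
          refine Or.inl ⟨fun k => (q k).2, ?_, ?_⟩
          · funext k; rw [h4 k]
          · refine (h1.2 n R q hq).mp ?_
            rw [funext h5]; exact hR
        · have h3 : ∀ k, ∃ q ∈ Δ, v k = (.inr q.1, .inr q.2) ∧ q.1 = w k := by
            intro k
            rcases hv k with ⟨q, hq, h4⟩ | ⟨q, hq, h4⟩
            · have := congrFun hw k
              rw [h4] at this
              simp at this
            · refine ⟨q, hq, h4, ?_⟩
              have := congrFun hw k
              rw [h4] at this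
              exact Sum.inr.inj this
          choose q hq h4 h5 using h3
          refine Or.inr ⟨fun k => (q k).2, ?_, ?_⟩
          · funext k; rw [h4 k]
          · refine (h2.2 n R q hq).mp ?_
            rw [funext h5]; exact hR
      · rintro (⟨w, hw, hR⟩ | ⟨w, hw, hR⟩)
        · have h3 : ∀ k, ∃ q ∈ Γ, v k = (.inl q.1, .inl q.2) ∧ q.2 = w k := by
            intro k
            rcases hv k with ⟨q, hq, h4⟩ | ⟨q, hq, h4⟩
            · refine ⟨q, hq, h4, ?_⟩
              have := congrFun hw k
              rw [h4] at this
              exact Sum.inl.inj this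
            · have := congrFun hw k
              rw [h4] at this
              simp at this
          choose q hq h4 h5 using h3
          refine Or.inl ⟨fun k => (q k).1, ?_, ?_⟩
          · funext k; rw [h4 k]
          · refine (h1.2 n R q hq).mpr ?_
            rw [funext h5]; exact hR
        · have h3 : ∀ k, ∃ q ∈ Δ, v k = (.inr q.1, .inr q.2) ∧ q.2 = w k := by
            intro k
            rcases hv k with ⟨q, hq, h4⟩ | ⟨q, hq, h4⟩
            · have := congrFun hw k
              rw [h4] at this
              simp at this
            · refine ⟨q, hq, h4, ?_⟩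
              have := congrFun hw k
              rw [h4] at this
              exact Sum.inr.inj this
          choose q hq h4 h5 using h3
          refine Or.inr ⟨fun k => (q k).1, ?_, ?_⟩
          · funext k; rw [h4 k]
          · refine (h2.2 n R q hq).mpr ?_
            rw [funext h5]; exact hR
  | succ r ih =>
    intro Γ Δ h1 h2
    have k1 : ∀ a b, BF A A' r (insert (a, b) Γ) →
        BF (dsum A B) (dsum A' B') r (insert (.inl a, .inl b) (cmb Γ Δ)) := by
      intro a b h
      refine BF.anti r ?_ (ih h h2.1)
      rintro p (rfl | ⟨q, hq, rfl⟩ | ⟨q, hq, rfl⟩)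
      · exact Or.inl ⟨_, mem_insert _ _, rfl⟩
      · exact Or.inl ⟨q, mem_insert_of_mem _ hq, rfl⟩
      · exact Or.inr ⟨q, hq, rfl⟩
    have k2 : ∀ a b, BF B B' r (insert (a, b) Δ) →
        BF (dsum A B) (dsum A' B') r (insert (.inr a, .inr b) (cmb Γ Δ)) := by
      intro a b h
      refine BF.anti r ?_ (ih h1.1 h)
      rintro p (rfl | ⟨q, hq, rfl⟩ | ⟨q, hq, rfl⟩)
      · exact Or.inr ⟨_, mem_insert _ _, rfl⟩
      · exact Or.inl ⟨q, hq, rfl⟩
      · exact Or.inr ⟨q, mem_insert_of_mem _ hq, rfl⟩
    refine ⟨ih h1.1 h2.1, ?_, ?_⟩
    · rintro (a | a)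
      · obtain ⟨b, hb⟩ := h1.2.1 a
        exact ⟨.inl b, k1 a b hb⟩
      · obtain ⟨b, hb⟩ := h2.2.1 a
        exact ⟨.inr b, k2 a b hb⟩
    · rintro (b | b)
      · obtain ⟨a, ha⟩ := h1.2.2 b
        exact ⟨.inl a, k1 a b ha⟩
      · obtain ⟨a, ha⟩ := h2.2.2 b
        exact ⟨.inr a, k2 a b ha⟩
  | sup f ih => intro Γ Δ h1 h2 n; exact ih n (h1 n) (h2 n)

theorem BF_dsum' {A : L.Structure M} {A' : L.Structure M'} {B : L.Structure N}
    {B' : L.Structure N'} {r : Rk} (h1 : BF A A' r ∅) (h2 : BF B B' r ∅) :
    BF (dsum A B) (dsum A' B') r ∅ := BF.anti r (empty_subset _) (BF_dsum r h1 h2)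

/-! ### Isomorphisms -/

/-- Structures embedded with the same range are isomorphic. -/
theorem iso_of_emb {A : L.Structure M} {B : L.Structure N} {U : L.Structure G} (f : M → G)
    (h : N → G) (hf : Function.Injective f) (hh : Function.Injective h)
    (hA : ∀ (n : ℕ) (R : L.Relations n) (v : Fin n → M),
      A.RelMap R v ↔ U.RelMap R (fun k => f (v k)))
    (hB : ∀ (n : ℕ) (R : L.Relations n) (v : Fin n → N),
      B.RelMap R v ↔ U.RelMap R (fun k => h (v k)))
    (hr : range f = range h) : Iso A B := by
  have h1 : ∀ a, ∃ b, h b = f a := by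
    intro a
    have : f a ∈ range h := by rw [← hr]; exact mem_range_self a
    exact this
  choose e he using h1
  have hinj : Function.Injective e := by
    intro a a' haa
    apply hf
    rw [← he, ← he, haa]
  have hsurj : Function.Surjective e := by
    intro b
    have : h b ∈ range f := by rw [hr]; exact mem_range_self b
    obtain ⟨a, ha⟩ := this
    exact ⟨a, hh (by rw [he, ha])⟩
  refine ⟨Equiv.ofBijective e ⟨hinj, hsurj⟩, fun n R v => ?_⟩
  rw [hA, hB]
  have : (fun k => h ((⇑(Equiv.ofBijective e ⟨hinj, hsurj⟩) ∘ v) k)) = fun k => f (v k) := by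
    funext k
    exact he (v k)
  rw [this]

theorem fam_reindex {I J : Type} (τ : I ≃ J) (S : J → L.Structure M) :
    Iso (fam fun i => S (τ i)) (fam S) := by
  refine ⟨Equiv.prodCongr τ (Equiv.refl M), fun n R v => ?_⟩
  constructor
  · rintro ⟨i, h1, h2⟩
    exact ⟨τ i, fun k => congrArg τ (h1 k), h2⟩
  · rintro ⟨j, h1, h2⟩
    refine ⟨τ.symm j, fun k => ?_, ?_⟩
    · have := h1 k
      simp only [Function.comp, Equiv.prodCongr_apply, Prod.map] at this
      rw [← this]
      simp
    · show (S (τ (τ.symm j))).RelMap R (fun k => (v k).2)
      rw [Equiv.apply_symm_apply]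
      exact h2

section absorb

variable {I : Type} (Q : Option I → L.Structure ℕ) (C : I → Set ℕ)

/-- infinitely many copies of each member of the family -/
@[instance_reducible]
def big : L.Structure ((Option I × ℕ) × ℕ) := fam fun h : Option I × ℕ => Q h.1

/-- the disjoint union of the parts -/
@[instance_reducible]
def parts : L.Structure {p : I × ℕ // p.2 ∈ C p.1} :=
  pull (fam fun i => Q (some i)) Subtype.val

open Classical in
/-- the absorbing bijection -/
noncomputable def absF : ((Option I × ℕ) × ℕ) ⊕ {p : I × ℕ // p.2 ∈ C p.1} →
    (Option I × ℕ) × ℕ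
  | .inr p => ((some p.1.1, 0), p.1.2)
  | .inl ((none, n), x) => ((none, n), x)
  | .inl ((some i, n), x) => if x ∈ C i then ((some i, n + 1), x) else ((some i, n), x)

theorem absF_injective : Function.Injective (absF (I := I) C) := by
  classical
  rintro (⟨⟨_ | i, n⟩, x⟩ | ⟨⟨i, x⟩, hx⟩) (⟨⟨_ | i', n'⟩, x'⟩ | ⟨⟨i', x'⟩, hx'⟩) h
  · simp only [absF] at h
    rw [h]
  · simp only [absF] at h
    split at h <;> simp at h
  · simp [absF] at h
  · simp only [absF] at h
    split at h <;> simp at h
  · simp only [absF] at h
    split at h <;> split at h <;> simp only [Prod.mk.injEq, Option.some.injEq] at h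
    · obtain ⟨⟨rfl, h1⟩, rfl⟩ := h
      rw [Nat.add_right_cancel h1]
    · obtain ⟨⟨rfl, h1⟩, rfl⟩ := h
      contradiction
    · obtain ⟨⟨rfl, h1⟩, rfl⟩ := h
      contradiction
    · obtain ⟨⟨rfl, h1⟩, rfl⟩ := h
      rw [h1]
  · simp only [absF] at h hx'
    split at h <;> simp only [Prod.mk.injEq, Option.some.injEq] at h
    · omega
    · obtain ⟨⟨rfl, h1⟩, rfl⟩ := h
      contradiction
  · simp [absF] at h
  · simp only [absF] at h hx
    split at h <;> simp only [Prod.mk.injEq, Option.some.injEq] at h
    · omega
    · obtain ⟨⟨rfl, h1⟩, rfl⟩ := h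
      contradiction
  · simp only [absF, Prod.mk.injEq, Option.some.injEq] at h
    obtain ⟨⟨rfl, -⟩, rfl⟩ := h
    rfl

theorem absF_surjective : Function.Surjective (absF (I := I) C) := by
  classical
  rintro ⟨⟨_ | i, n⟩, x⟩
  · exact ⟨.inl ((none, n), x), rfl⟩
  · by_cases hx : x ∈ C i
    · cases n with
      | zero => exact ⟨.inr ⟨(i, x), hx⟩, rfl⟩
      | succ n => exact ⟨.inl ((some i, n), x), by simp [absF, hx]⟩
    · exact ⟨.inl ((some i, n), x), by simp [absF, hx]⟩

variable {Q C}

theorem absorb (hC : ∀ i (n : ℕ) (R : L.Relations n) (v : Fin n → ℕ),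
    (Q (some i)).RelMap R v → (∀ k, v k ∈ C i) ∨ (∀ k, v k ∉ C i)) :
    Iso (dsum (big Q) (parts Q C)) (big Q) := by
  classical
  refine ⟨Equiv.ofBijective (absF C) ⟨absF_injective C, absF_surjective C⟩, fun n R v => ?_⟩
  show _ ↔ (big Q).RelMap R (fun k => absF C (v k))
  constructor
  · rintro (⟨w, rfl, ⟨o, m⟩, h1, h2⟩ | ⟨w, rfl, i, h1, h2⟩)
    · cases o with
      | none =>
        refine ⟨(none, m), fun k => ?_, ?_⟩
        · show (absF C (Sum.inl (w k))).1 = (none, m)
          have := h1 k
          rcases hw : w k with ⟨⟨o', m'⟩, x⟩
          rw [hw] at this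
          simp only [Prod.mk.injEq] at this
          obtain ⟨rfl, rfl⟩ := this
          rfl
        · have : (fun k => (absF C (Sum.inl (w k))).2) = fun k => (w k).2 := by
            funext k
            have := h1 k
            rcases hw : w k with ⟨⟨o', m'⟩, x⟩
            rw [hw] at this
            simp only [Prod.mk.injEq] at this
            obtain ⟨rfl, rfl⟩ := this
            rfl
          show (Q none).RelMap R (fun k => (absF C (Sum.inl (w k))).2)
          rw [this]
          exact h2
      | some i =>
        have h5 : ∀ k, w k = ((some i, m), (w k).2) := by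
          intro k
          rw [← h1 k]
        rcases hC i n R _ h2 with h3 | h3
        · refine ⟨(some i, m + 1), fun k => ?_, ?_⟩
          · show (absF C (Sum.inl (w k))).1 = (some i, m + 1)
            rw [h5 k]
            have := h3 k
            simp only [absF, if_pos this]
          · have : (fun k => (absF C (Sum.inl (w k))).2) = fun k => (w k).2 := by
              funext k
              rw [h5 k]
              have := h3 k
              simp only [absF, if_pos this]
            show (Q (some i)).RelMap R (fun k => (absF C (Sum.inl (w k))).2)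
            rw [this]
            exact h2
        · refine ⟨(some i, m), fun k => ?_, ?_⟩
          · show (absF C (Sum.inl (w k))).1 = (some i, m)
            rw [h5 k]
            have := h3 k
            simp only [absF, if_neg this]
          · have : (fun k => (absF C (Sum.inl (w k))).2) = fun k => (w k).2 := by
              funext k
              rw [h5 k]
              have := h3 k
              simp only [absF, if_neg this]
            show (Q (some i)).RelMap R (fun k => (absF C (Sum.inl (w k))).2)
            rw [this]
            exact h2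
    · refine ⟨(some i, 0), fun k => ?_, h2⟩
      have := h1 k
      simp only at this
      simp only [absF, this]
  · rintro ⟨⟨o, m⟩, h1, h2⟩
    simp only at h1 h2
    cases o with
    | none =>
      -- all entries lie in a copy of the first kind
      have h3 : ∀ k, ∃ x, v k = .inl ((none, m), x) ∧ (absF C (v k)).2 = x := by
        intro k
        have := h1 k
        rcases hv : v k with ⟨⟨o', m'⟩, x⟩ | ⟨⟨i, x⟩, hx⟩
        · cases o' with
          | none =>
            rw [hv] at this
            simp only [absF, Prod.mk.injEq, true_and] at this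
            subst this
            exact ⟨x, rfl, rfl⟩
          | some i =>
            rw [hv] at this
            simp only [absF] at this
            split at this <;> simp at this
        · rw [hv] at this
          simp [absF] at this
      choose x hx1 hx2 using h3
      refine Or.inl ⟨fun k => ((none, m), x k), funext hx1, (none, m), fun _ => rfl, ?_⟩
      show (Q none).RelMap R x
      rw [← funext hx2]
      exact h2
    | some i =>
      rcases hC i n R _ h2 with h3 | h3
      · -- all entries lie in the part
        cases m with
        | zero =>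
          have h4 : ∀ k, ∃ (x : ℕ) (hx : x ∈ C i), v k = .inr ⟨(i, x), hx⟩ ∧
              (absF C (v k)).2 = x := by
            intro k
            have h5 := h1 k
            have h6 := h3 k
            rcases hv : v k with ⟨⟨o', m'⟩, x⟩ | ⟨⟨i', x⟩, hx⟩
            · exfalso
              cases o' with
              | none =>
                rw [hv] at h5
                simp [absF] at h5
              | some i' =>
                rw [hv] at h5 h6
                simp only [absF] at h5 h6
                split at h5
                · simp at h5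
                · rename_i hx
                  rw [if_neg hx] at h6
                  simp only [Prod.mk.injEq, Option.some.injEq] at h5
                  rw [h5.1] at hx
                  exact hx h6
            · rw [hv] at h5
              simp only [absF, Prod.mk.injEq, Option.some.injEq, and_true] at h5
              subst h5
              exact ⟨x, hx, rfl, rfl⟩
          choose x hx hx1 hx2 using h4
          refine Or.inr ⟨fun k => ⟨(i, x k), hx k⟩, funext hx1, i, fun _ => rfl, ?_⟩
          show (Q (some i)).RelMap R x
          rw [← funext hx2]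
          exact h2
        | succ m =>
          have h4 : ∀ k, ∃ x : ℕ, v k = .inl ((some i, m), x) ∧ (absF C (v k)).2 = x := by
            intro k
            have h5 := h1 k
            have h6 := h3 k
            rcases hv : v k with ⟨⟨o', m'⟩, x⟩ | ⟨⟨i', x⟩, hx⟩
            · cases o' with
              | none =>
                rw [hv] at h5
                simp [absF] at h5
              | some i' =>
                rw [hv] at h5 h6
                simp only [absF] at h5 h6 ⊢
                split at h5
                · rename_i hx
                  simp only [Prod.mk.injEq, Option.some.injEq, Nat.add_right_cancel_iff] at h5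
                  obtain ⟨rfl, rfl⟩ := h5
                  exact ⟨x, rfl, by rw [if_pos hx]⟩
                · rename_i hx
                  rw [if_neg hx] at h6
                  simp only [Prod.mk.injEq, Option.some.injEq] at h5
                  rw [h5.1] at hx
                  exact absurd h6 hx
            · rw [hv] at h5
              simp [absF] at h5
          choose x hx1 hx2 using h4
          refine Or.inl ⟨fun k => ((some i, m), x k), funext hx1, (some i, m), fun _ => rfl, ?_⟩
          show (Q (some i)).RelMap R x
          rw [← funext hx2]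
          exact h2
      · -- no entry lies in the part
        have h4 : ∀ k, ∃ x : ℕ, v k = .inl ((some i, m), x) ∧ (absF C (v k)).2 = x := by
          intro k
          have h5 := h1 k
          have h6 := h3 k
          rcases hv : v k with ⟨⟨o', m'⟩, x⟩ | ⟨⟨i', x⟩, hx⟩
          · cases o' with
            | none =>
              rw [hv] at h5
              simp [absF] at h5
            | some i' =>
              rw [hv] at h5 h6
              simp only [absF] at h5 h6 ⊢
              split at h5
              · rename_i hx
                rw [if_pos hx] at h6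
                simp only [Prod.mk.injEq, Option.some.injEq] at h5
                rw [h5.1] at hx
                exact absurd hx h6
              · rename_i hx
                simp only [Prod.mk.injEq, Option.some.injEq] at h5
                obtain ⟨rfl, rfl⟩ := h5
                exact ⟨x, rfl, by rw [if_neg hx]⟩
          · rw [hv] at h5 h6
            simp only [absF, Prod.mk.injEq, Option.some.injEq] at h5 h6
            rw [h5.1] at hx
            exact absurd hx h6
        choose x hx1 hx2 using h4
        refine Or.inl ⟨fun k => ((some i, m), x k), funext hx1, (some i, m), fun _ => rfl, ?_⟩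
        show (Q (some i)).RelMap R x
        rw [← funext hx2]
        exact h2

end absorb

end Pool.Agent.Helper5.DU
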